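import Pool.Agent.MP_fcd29e_an.H11.CS

/-!
Admissible frames are injective, are cut out by binomial relations, and map the null cone into
constant quadrics.
-/

set_option autoImplicit false

open Complex Set Filter Topology Metric Pool.Agent.MP_fcd29e_an.H81 Pool.Agent.MP_fcd29e_an.H11

namespace Pool.Agent.MP_fcd29e_an.H41

namespace Cxb

lemma tp_far {m : ℕ} {i j : Fin m} (h : i ≠ j) : 1 ≤ ‖tp i - tp j‖ := by
  have e : tp i - tp j = I * (((i : ℕ) : ℤ) - ((j : ℕ) : ℤ) : ℤ) := by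
    simp only [tp]; push_cast; ring
  rw [e, norm_mul, norm_I, one_mul, Complex.norm_intCast]
  have h1 : ((i : ℕ) : ℤ) - ((j : ℕ) : ℤ) ≠ 0 := by
    intro h0
    exact h (Fin.ext (by omega))
  exact_mod_cast Int.one_le_abs h1

lemma tp_norm {m : ℕ} (i : Fin m) : ‖tp i‖ ≤ m := by
  simp only [tp, norm_mul, norm_I, one_mul, Complex.norm_natCast]
  exact_mod_cast i.2.le

/-- The kind of base block that belongs to a point of the curve. -/
def Base {m : ℕ} (s : Option (Fin m) → ℂ) (b : Bk m) : Prop :=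
  (s none ≠ 0 ∧ (∀ j, s (some j) ≠ 0) ∧ b = none) ∨
    (∃ j, s (some j) = 0 ∧ b = some (some j)) ∨ (s none = 0 ∧ b = some none)

lemma base (hGR : SGR) (hXU : SXU) {r m n : ℕ} [NeZero m] {C c S : ℝ} {om : Fin m → Fin r → ℂ}
    {F Fi : ℂ → EV (Fin r)} {Fr : ℂ → EV (Fin r) → Prop} {fc : Fin m → ℂ × V (Fin r) → ℝ}
    {fi : ℂ × V (Fin r) → ℝ} {fh : ℂ × (Fin r → ℂ) → ℝ} (hn : 1 ≤ n) (hR : RepB r m c S om)
    (hF : Frames r m n C c S om F Fi Fr) {s : Option (Fin m) → ℂ} (hs : s ∈ XX m n)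
    {e : V (Fin r) →L[ℂ] (Bk m → V (Fin r))} {w : V (Fin r) →L[ℂ] (Wi r m → ℂ)}
    {φ : V (Fin r) → ℝ} (h : Adm n c S om F Fr fc fi fh s e w φ) :
    ∃ (b : Bk m) (a : ℂ) (M : EV (Fin r)), a ≠ 0 ∧ Orth M ∧ (∀ x, e x b = a • M x) ∧ Base s b := by
  obtain ⟨u1, u2, u3, -, -⟩ := hXU r m n hn s hs
  obtain ⟨-, -, -, omul, -⟩ := hGR.op (Fin r)
  have hz : s none ≠ 0 → ∀ i, s (some i) = 0 → (s (some 0) / s none) ^ n = tp i := by
    intro h0 i hi
    rw [← u3 h0 i, hi, zero_div, zero_pow (by omega), add_zero]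
  have hprod : (∀ i, s (some i) ≠ 0) → ∏ i, s (some i) ≠ 0 := fun h =>
    Finset.prod_ne_zero_iff.2 fun i _ => h i
  rcases h.2 with ⟨j, G, hG, h0, h1, h2, h3, -⟩ | ⟨G, hG, h0, h1, h2, h3, -⟩ | ⟨M, hM, h0, h1, -, h2, -⟩
  · by_cases hj : s (some j) = 0
    · refine ⟨some (some j), _, G, ?_, hG.orth, h3 hj, Or.inr (Or.inl ⟨j, hj, rfl⟩)⟩
      refine mul_ne_zero (Finset.prod_ne_zero_iff.2 fun i hi => ?_) (pow_ne_zero _ h0)
      exact (u2 j hj).2 i (Finset.ne_of_mem_erase hi)
    · have ht : (s (some 0) / s none) ^ n - tp j = (s (some j) / s none) ^ n := by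
        rw [← u3 h0 j]; ring
      have hall : ∀ i, s (some i) ≠ 0 := by
        intro i hi
        have hij : i ≠ j := fun h => hj (h ▸ hi)
        have := tp_far hij
        rw [← hz h0 i hi, ht] at this
        linarith
      refine ⟨none, _, F ((s (some 0) / s none) ^ n) * rot c S (om j) (s (some j) / s none) * G,
        mul_ne_zero (hprod hall) (pow_ne_zero _ h0), ?_, h2 hj, Or.inl ⟨h0, hall, rfl⟩⟩
      refine omul _ _ (omul _ _ (hF.an j _ (by rw [ht]; linarith)).2 ?_) hG.orth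
      exact ((hGR.rt (Fin r) c S (om j) (hR.ax j)).2 _ (div_ne_zero hj h0)).1
  · by_cases hσ : s none = 0
    · exact ⟨some none, _, G, mul_ne_zero (hprod (u1 hσ)) (pow_ne_zero _ h0), hG.orth, h3 hσ,
        Or.inr (Or.inr ⟨hσ, rfl⟩)⟩
    · have ht : (m : ℝ) + 2 < ‖(s (some 0) / s none) ^ n‖ := by
        have e1 : ‖(s none / s (some 0)) ^ n‖ * ‖(s (some 0) / s none) ^ n‖ = 1 := by
          rw [← norm_mul, ← mul_pow]
          have : s none / s (some 0) * (s (some 0) / s none) = 1 := by field_simp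
          rw [this]; simp
        have e2 : 0 < ‖(s (some 0) / s none) ^ n‖ :=
          norm_pos_iff.2 (pow_ne_zero _ (div_ne_zero h0 hσ))
        have := mul_lt_mul_of_pos_right h1 e2
        rw [mul_assoc, e1] at this
        linarith
      have hall : ∀ i, s (some i) ≠ 0 := by
        intro i hi
        have := tp_norm i
        rw [← hz hσ i hi] at this
        linarith
      refine ⟨none, _, F ((s (some 0) / s none) ^ n) * dg ((s (some 0) / s none) ^ (4 * m)) * G,
        mul_ne_zero (hprod hall) (pow_ne_zero _ hσ), ?_, h2 hσ, Or.inl ⟨hσ, hall, rfl⟩⟩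
      refine omul _ _ (omul _ _ (hF.ani _ (by linarith)).2.1 ?_) hG.orth
      exact ((hGR.dgp (Fin r)).2 _ (pow_ne_zero _ (div_ne_zero h0 hσ))).1
  · have hall : ∀ i, s (some i) ≠ 0 := by
      intro i hi
      have := h1 i
      rw [hz h0 i hi, sub_self, norm_zero] at this
      linarith
    exact ⟨none, _, M, mul_ne_zero (hprod hall) (pow_ne_zero _ h0), hF.orth _ _ hM, h2,
      Or.inl ⟨h0, hall, rfl⟩⟩

variable {ι : Type} [Fintype ι]

lemma B_smul (hGR : SGR) (a b : ℂ) (u v : V ι) : B (a • u) (b • v) = a * b * B u v := by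
  rw [(hGR.bil ι u u (b • v) a).2.2.2.1, (hGR.bil ι u (b • v) u a).1,
    (hGR.bil ι v v u b).2.2.2.1, (hGR.bil ι v u u a).1]
  ring

lemma B_split (hGR : SGR) {c S : ℝ} {w : ι → ℂ} (h : Ax c S w) (v : V ι) :
    B v v = B (P0 c S w v) (P0 c S w v) + 2 * B (Pp c S w v) (Pm c S w v) := by
  obtain ⟨Q, hQ⟩ := hGR.form ι
  obtain ⟨h1, h2, h3, -, -, -, -, -, h4⟩ := hGR.vec ι c S w h
  have sym : ∀ x y : V ι, B x y = B y x := fun x y => (hGR.bil ι x y x 1).1
  have e0 : P0 c S w v = v - Pp c S w v - Pm c S w v := rfl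
  rw [e0, (h4 v).1, (h4 v).2.1]
  have h3' : B (em c S w) (ep c S w) = 2 := by rw [sym, h3]
  have a1 := sym (ep c S w) v
  have a2 := sym (em c S w) v
  simp only [← hQ] at *
  simp only [map_sub, map_smul, ContinuousLinearMap.sub_apply, ContinuousLinearMap.smul_apply,
    smul_eq_mul, h1, h2, h3, h3', a1, a2]
  ring

lemma null_all (hGR : SGR) (hXU : SXU) {r m n : ℕ} [NeZero m] {c S : ℝ} {om : Fin m → Fin r → ℂ}
    {F : ℂ → EV (Fin r)} (hn : 1 ≤ n) (hax : ∀ j, Ax c S (om j))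
    (hO : ∀ j : Fin m, Orth (F (tp j))) {s : Option (Fin m) → ℂ} (hs : s ∈ XX m n)
    {y : Bk m → V (Fin r)} (hy : RelE c S om F s y) {b : Bk m} (hb : Base s b)
    (h0 : B (y b) (y b) = 0) (b' : Bk m) : B (y b') (y b') = 0 := by
  obtain ⟨u1, u2, -, -, -⟩ := hXU r m n hn s hs
  obtain ⟨r1, r2, r3, r4⟩ := hy
  have hm : m ≠ 0 := NeZero.ne m
  have I1 : s none ^ (8 * m) * B (y (some none)) (y (some none))
      = s (some 0) ^ (8 * m) * B (y none) (y none) := by
    rw [(hGR.blk _ _ 1).1, (hGR.blk _ _ 1).1] at r1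
    rw [(hGR.blk _ _ 1).2.1, (hGR.blk _ _ 1).2.1] at r2
    rw [(hGR.blk _ _ 1).2.2.1, (hGR.blk _ _ 1).2.2.1] at r3
    have a1 : s none ^ (4 * m) * (y (some none)).1 = s (some 0) ^ (4 * m) * (y none).1 :=
      congrArg Prod.fst r1
    have a2 : (y (some none)).2.1 = (y none).2.1 := congrArg (fun v => v.2.1) r2
    have a3 : ∀ k, s none ^ (8 * m) * (y (some none)).2.2 k
        = s (some 0) ^ (8 * m) * (y none).2.2 k := fun k => congrArg (fun v => v.2.2 k) r3
    have p1 : s none ^ (8 * m) = (s none ^ (4 * m)) ^ 2 := by rw [← pow_mul]; congr 1; ring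
    have p2 : s (some 0) ^ (8 * m) = (s (some 0) ^ (4 * m)) ^ 2 := by
      rw [← pow_mul]; congr 1; ring
    have a4 : s none ^ (8 * m) * ((y (some none)).1 * (y (some none)).1)
        = s (some 0) ^ (8 * m) * ((y none).1 * (y none).1) := by
      rw [p1, p2]
      linear_combination (s none ^ (4 * m) * (y (some none)).1
        + s (some 0) ^ (4 * m) * (y none).1) * a1
    have a5 : s none ^ (8 * m) * ∑ k, ((y (some none)).2.1 k * (y (some none)).2.2 k
          + (y (some none)).2.2 k * (y (some none)).2.1 k)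
        = s (some 0) ^ (8 * m) * ∑ k, ((y none).2.1 k * (y none).2.2 k
          + (y none).2.2 k * (y none).2.1 k) := by
      rw [Finset.mul_sum, Finset.mul_sum]
      refine Finset.sum_congr rfl fun k _ => ?_
      rw [a2]
      linear_combination 2 * (y none).2.1 k * a3 k
    simp only [B]
    linear_combination a5 / 2 - a4
  have I2 : ∀ j, s (some j) ^ 2 * B (y (some (some j))) (y (some (some j)))
      = s none ^ 2 * B (y none) (y none) := by
    intro j
    obtain ⟨q1, q2, q3⟩ := r4 j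
    have o1 := ((hGR.op (Fin r)).2.2.2.2 _ (hO j)).2 (y none) (y none)
    rw [← o1, B_split hGR (hax j) (y (some (some j))),
      B_split hGR (hax j) (Ring.inverse (F (tp j)) (y none)), ← q3]
    have b1 := congrArg (fun v => B v v) q2
    have b2 := congrArg (fun v => B v ((1 : ℂ) • Pm c S (om j) (y (some (some j))))) q1
    simp only [B_smul hGR] at b1 b2
    linear_combination b1 + 2 * b2
  have fin : B (y none) (y none) = 0 → (s none ≠ 0 ∨ b = some none) →
      (∀ j, s (some j) ≠ 0 ∨ b = some (some j)) → B (y b') (y b') = 0 := by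
    intro hA h1 h2
    rcases b' with _ | _ | j
    · exact hA
    · rcases h1 with h1 | h1
      · rw [hA, mul_zero] at I1
        exact (mul_eq_zero.1 I1).resolve_left (pow_ne_zero _ h1)
      · exact h1 ▸ h0
    · rcases h2 j with h2 | h2
      · have := I2 j
        rw [hA, mul_zero] at this
        exact (mul_eq_zero.1 this).resolve_left (pow_ne_zero _ h2)
      · exact h2 ▸ h0
  rcases hb with ⟨h1, h2, rfl⟩ | ⟨j, h1, rfl⟩ | ⟨h1, rfl⟩
  · exact fin h0 (Or.inl h1) fun j => Or.inl (h2 j)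
  · have := I2 j
    rw [h0, mul_zero] at this
    refine fin ((mul_eq_zero.1 this.symm).resolve_left (pow_ne_zero _ (u2 j h1).1))
      (Or.inl (u2 j h1).1) fun i => ?_
    by_cases hij : i = j
    · exact Or.inr (by rw [hij])
    · exact Or.inl ((u2 j h1).2 i hij)
  · rw [h0, mul_zero] at I1
    exact fin ((mul_eq_zero.1 I1.symm).resolve_left (pow_ne_zero _ (u1 h1 0))) (Or.inr rfl)
      fun j => Or.inl (u1 h1 j)

end Cxb

open Cxb

theorem sxb (hGR : SGR) (hXU : SXU) : SXB := by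
  intro r m n _ C c S om F Fi Fr fc fi fh hn hR hF
  have hO : ∀ j : Fin m, Orth (F (tp j)) := fun j => (hF.an j (tp j) (by simp)).2
  have hm : m ≠ 0 := NeZero.ne m
  have hinv : ∀ M : EV (Fin r), Orth M → (∀ x, Ring.inverse M (M x) = x) ∧
      ∀ x, M (Ring.inverse M x) = x := by
    intro M hM
    have hu := ((hGR.op (Fin r)).2.2.2.2 M hM).1
    exact ⟨fun x => congrArg (fun T : EV (Fin r) => T x) (Ring.inverse_mul_cancel M hu),
      fun x => congrArg (fun T : EV (Fin r) => T x) (Ring.mul_inverse_cancel M hu)⟩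
  refine ⟨fun s hs e w φ h x y hxy => ?_, fun s₀ hs₀ e₀ w₀ φ₀ h₀ y hy => ?_,
    fun s₀ hs₀ e₀ w₀ φ₀ h₀ => ?_⟩
  · obtain ⟨b, a, M, ha, hM, he, -⟩ := base hGR hXU hn hR hF hs h
    have h1 : a • M x = a • M y := by rw [← he, ← he, hxy]
    have h2 := smul_right_injective _ ha h1
    rw [← (hinv M hM).1 x, h2, (hinv M hM).1 y]
  · obtain ⟨b, a, M, ha, hM, he, hb⟩ := base hGR hXU hn hR hF hs₀ h₀
    have key : ∀ (k : ℕ) (o o' : Option (Fin m)) (b₁ b₂ : Bk m) (P₁ P₂ : EV (Fin r)), k ≤ 8 * m →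
        (∀ s z, RelE c S om F s z → s o ^ k • P₁ (z b₁) = s o' ^ k • P₂ (z b₂)) →
        s₀ o ^ k • P₁ (y b₁) = s₀ o' ^ k • P₂ (y b₂) := by
      intro k o o' b₁ b₂ P₁ P₂ hk hP
      rw [SeparatingDual.eq_iff_forall_dual_eq (R := ℂ)]
      intro l
      have := hy k hk (MvPolynomial.X o ^ k) (MvPolynomial.X o' ^ k)
        (MvPolynomial.isHomogeneous_X_pow o k) (MvPolynomial.isHomogeneous_X_pow o' k)
        (l.comp (P₁.comp (ContinuousLinearMap.proj b₁)))
        (l.comp (P₂.comp (ContinuousLinearMap.proj b₂))) (fun s _ e w φ h x => by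
          have := congrArg l (hP s (e x) (h.1 x).1)
          simpa using this)
      simpa using this
    have hrel : RelE c S om F s₀ y := by
      refine ⟨key _ none (some 0) (some none) none Q0 Q0 (by omega) fun s z hz => hz.1, ?_,
        key _ none (some 0) (some none) none Qm Qm le_rfl fun s z hz => hz.2.2.1, fun j => ⟨?_, ?_, ?_⟩⟩
      · simpa using key 0 none none (some none) none Qp Qp (by omega) fun s z hz => by
          simpa using hz.2.1
      · exact key 2 (some j) none (some (some j)) none (Pp c S (om j))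
          (Pp c S (om j) * Ring.inverse (F (tp j))) (by omega) fun s z hz => (hz.2.2.2 j).1
      · have := key 1 (some j) none (some (some j)) none (P0 c S (om j))
          (P0 c S (om j) * Ring.inverse (F (tp j))) (by omega) fun s z hz => by
            rw [pow_one, pow_one]; exact (hz.2.2.2 j).2.1
        rwa [pow_one, pow_one] at this
      · have := key 0 none none (some (some j)) none (Pm c S (om j))
          (Pm c S (om j) * Ring.inverse (F (tp j))) (by omega) fun s z hz => by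
            rw [pow_zero, one_smul, one_smul]; exact (hz.2.2.2 j).2.2
        rwa [pow_zero, one_smul, one_smul] at this
    obtain ⟨-, -, -, -, u5⟩ := hXU r m n hn s₀ hs₀
    obtain ⟨v1, -, v3, -, -⟩ := u5 c S om F hR.ax hO
    refine ⟨Ring.inverse M (a⁻¹ • y b), ?_⟩
    have h1 := v3 y _ 1 hrel (h₀.1 (Ring.inverse M (a⁻¹ • y b))).1
    have h2 : (y - (1 : ℂ) • e₀ (Ring.inverse M (a⁻¹ • y b))) b = 0 := by
      rw [one_smul, Pi.sub_apply, he, (hinv M hM).2, smul_smul, mul_inv_cancel₀ ha, one_smul,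
        sub_self]
    have h3 := v1 _ h1 (by
      rcases hb with ⟨a1, a2, rfl⟩ | ⟨j, a1, rfl⟩ | ⟨a1, rfl⟩
      · exact Or.inl ⟨a1, a2, h2⟩
      · exact Or.inr (Or.inl ⟨j, a1, h2⟩)
      · exact Or.inr (Or.inr ⟨a1, h2⟩))
    rw [one_smul] at h3
    exact sub_eq_zero.1 h3
  · obtain ⟨b, a, M, ha, hM, he, -⟩ := base hGR hXU hn hR hF hs₀ h₀
    obtain ⟨Q, hQ⟩ := hGR.form (Fin r)
    refine ⟨Q.bilinearComp (ContinuousLinearMap.proj b) (ContinuousLinearMap.proj b), 2 * a ^ 2,
      mul_ne_zero two_ne_zero (pow_ne_zero _ ha), fun s hs e w φ h x hx => ?_, fun x y => ?_⟩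
    · obtain ⟨b', a', M', -, hM', he', hb'⟩ := base hGR hXU hn hR hF hs h
      rw [ContinuousLinearMap.bilinearComp_apply, hQ]
      refine null_all hGR hXU hn hR.ax hO hs (h.1 x).1 hb' ?_ b
      rw [he', B_smul hGR, hM', hx, mul_zero]
    · rw [ContinuousLinearMap.bilinearComp_apply, ContinuousLinearMap.bilinearComp_apply, hQ, hQ]
      simp only [ContinuousLinearMap.proj_apply]
      rw [he, he, B_smul hGR, B_smul hGR, hM, hM, (hGR.bil _ y x x 1).1]
      ring

end Pool.Agent.MP_fcd29e_an.H41
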