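import Pool.Agent.MP_fcd29e_an.H31.Spec3

/-! Row SBs: the local Sobolev space of real order. -/

set_option autoImplicit false

open MeasureTheory Complex Set Filter Topology Metric Pool.Agent.MP_fcd29e_an.H81
  Pool.Agent.MP_fcd29e_an.H31
open scoped ContDiff ComplexConjugate ENNReal NNReal FourierTransform SchwartzMap Manifold

namespace Pool.Agent.MP_fcd29e_an.H41

variable {N : ℕ} {s : ℝ}

theorem bump {K : Set (E N)} (hK : IsCompact K) (h0 : (0 : E N) ∉ K) :
    ∃ χ, Test (E0 N) χ ∧ ∀ z ∈ K, χ z = 1 := by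
  obtain ⟨K', hK', h1, h2⟩ := exists_compact_between hK isOpen_compl_singleton
    (subset_compl_singleton_iff.2 h0)
  obtain ⟨f, f0, f1, -⟩ := exists_contMDiffMap_zero_one_of_isClosed (n := ⊤) 𝓘(ℝ, E N)
    (isOpen_interior (s := K')).isClosed_compl hK.isClosed (disjoint_compl_left_iff_subset.2 h1)
  have hs : tsupport (fun z => (f z : ℂ)) ⊆ K' := by
    refine closure_minimal (fun z hz => ?_) hK'.isClosed
    by_contra hc
    exact hz (by simp [f0 fun h => hc (interior_subset h)])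
  exact ⟨fun z => f z, ⟨ofRealCLM.contDiff.comp f.contMDiff.contDiff,
    hK'.of_isClosed_subset (isClosed_tsupport _) hs, hs.trans h2⟩, fun z hz => by simp [f1 hz]⟩

theorem tst_l2 {ψ : E N → ℂ} (h : Tst ψ) : MemLp ψ 2 volume :=
  h.1.continuous.memLp_of_hasCompactSupport h.2

theorem hs_congr {f g : E N → ℂ} (h : Hs s f) (e : ∀ᵐ z, f z = g z) : Hs s g := by
  obtain ⟨h1, C, hC⟩ := h
  refine ⟨h1.ae_eq e, C, fun ψ hψ => ?_⟩
  rw [← integral_congr_ae (f := fun x => f x * ψ x) (e.mono fun z hz => by simp only [hz])]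
  exact hC ψ hψ

theorem hs_neg {f : E N → ℂ} (h : Hs s f) : Hs s fun z => -f z := by
  obtain ⟨h1, C, hC⟩ := h
  refine ⟨h1.neg, C, fun ψ hψ => ?_⟩
  simp only [neg_mul, integral_neg, norm_neg]
  exact hC ψ hψ

theorem hs_add {f g : E N → ℂ} (h : Hs s f) (h' : Hs s g) : Hs s fun z => f z + g z := by
  obtain ⟨h1, C, hC⟩ := h
  obtain ⟨h2, D, hD⟩ := h'
  refine ⟨h1.add h2, 2 * C + 2 * D, fun ψ hψ => ?_⟩
  simp only [add_mul]
  rw [integral_add (f := fun x => f x * ψ x) (g := fun x => g x * ψ x)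
    (h1.integrable_mul (tst_l2 hψ)) (h2.integrable_mul (tst_l2 hψ))]
  set a := ∫ x, f x * ψ x
  set b := ∫ x, g x * ψ x
  have e : ‖a + b‖ ^ 2 ≤ 2 * ‖a‖ ^ 2 + 2 * ‖b‖ ^ 2 := by
    have := pow_le_pow_left₀ (norm_nonneg _) (norm_add_le a b) 2
    nlinarith [sq_nonneg (‖a‖ - ‖b‖)]
  refine (ENNReal.ofReal_le_ofReal e).trans ?_
  rw [ENNReal.ofReal_add (by positivity) (by positivity), ENNReal.ofReal_mul zero_le_two,
    ENNReal.ofReal_mul zero_le_two, ENNReal.ofReal_ofNat]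
  push_cast
  rw [add_mul, mul_assoc, mul_assoc]
  gcongr
  · exact hC ψ hψ
  · exact hD ψ hψ

theorem hs_tst (h2 : StmtEQ1) {f : E N → ℂ} (h : Tst f) : Hs s f := by
  refine h2 N s f (tst_l2 h) ?_
  have e : (tst_l2 h).toLp f = (h.2.toSchwartzMap h.1).toLp 2 volume := rfl
  rw [e, Lp.toTemperedDistribution_toLp_eq]
  exact SchwartzMap.memSobolev _

theorem hs_mul (h1 : StmtMUL) (hs : 0 ≤ s) {f χ : E N → ℂ} (hχ : Tst χ) (h : Hs s f) :
    Hs s fun z => χ z * f z := by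
  obtain ⟨hf, C, hC⟩ := h
  obtain ⟨D, hD⟩ := h1 N s hs χ hχ
  obtain ⟨B, hB⟩ := hχ.1.continuous.bounded_above_of_compact_support hχ.2
  refine ⟨hf.of_le_mul (c := B) (hχ.1.continuous.aestronglyMeasurable.mul hf.1)
    (Eventually.of_forall fun z => ?_), C * D, fun ψ hψ => ?_⟩
  · rw [norm_mul]
    exact mul_le_mul_of_nonneg_right (hB z) (norm_nonneg _)
  · have e : ∀ x, χ x * f x * ψ x = f x * (χ x * ψ x) := fun x => by ring
    simp only [e]
    refine (hC _ ⟨hχ.1.mul hψ.1, hψ.2.mul_left⟩).trans ?_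
    rw [ENNReal.coe_mul, mul_assoc]
    gcongr
    exact hD ψ hψ

theorem wls (L : Lv0) (hs : 0 ≤ s) {ρ : E N → ℝ} (h : Dom ρ) (g : E N → ℂ) (hg : WLs ρ s g) :
    L2 (E0 N) g := by
  intro K hK h0
  obtain ⟨-, ho, -, -, -, ⟨B, hB⟩, -⟩ := L.c1 N ρ h
  have hE : E0 N ∩ K = K := inter_eq_right.2 (subset_compl_singleton_iff.2 h0)
  have h1 := hg.2.2 K hK h0
  rw [← Measure.restrict_restrict ho.measurableSet,
    ← memLp_indicator_iff_restrict ho.measurableSet] at h1
  rw [hE]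
  refine h1.of_le_mul (c := B ^ s) hg.1.restrict ?_
  filter_upwards [ae_restrict_of_ae hg.2.1, ae_restrict_mem hK.measurableSet] with z hz hzK
  have hB0 : 0 ≤ B := (abs_nonneg _).trans (hB 0)
  by_cases hr : ρ z ≤ 0
  · rw [hz hr, norm_zero]; positivity
  · have hp : 0 < ρ z := not_le.1 hr
    rw [indicator_of_mem (show z ∈ Op ρ from ⟨fun e => h0 (e ▸ hzK), hp⟩), norm_div,
      Complex.norm_real, Real.norm_of_nonneg (by positivity), ← mul_div_assoc,
      le_div_iff₀ (by positivity), mul_comm]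
    exact mul_le_mul_of_nonneg_right
      (Real.rpow_le_rpow hp.le ((le_abs_self _).trans (hB z)) hs) (norm_nonneg _)

theorem sbs (L : Lv0) (_h : StmtFA) (h1 : StmtMUL) (h2 : StmtEQ1) : StmtSBs := by
  intro N s hs
  have T := fun ψ hψ => ((L.t1 N (E0 N) isOpen_compl_singleton (by simp)).2.2.2.1 ψ hψ).1
  have add : ∀ f g : E N → ℂ, SobH s f → SobH s g → SobH s fun z => f z + g z :=
    fun f g hf hg χ hχ => by simpa only [mul_add] using hs_add (hf χ hχ) (hg χ hχ)
  have sm : ∀ f : E N → ℂ, ContDiffOn ℝ ∞ f (E0 N) → SobH s f := fun f hf χ hχ => by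
    have := T χ hχ f hf
    simpa only [mul_comm] using hs_tst (s := s) h2 ⟨this.1, this.2.1⟩
  refine ⟨fun f hf => ⟨fun K hK h0 => ?_, fun g hg => ⟨add f g hf hg, fun χ hχ => ?_⟩,
    fun a ha χ hχ => ?_⟩, fun ι t F hF => ?_, sm, fun f => hs_tst h2,
    fun f hf => ⟨fun χ hχ => hs_mul h1 hs ⟨hχ.1, hχ.2.1⟩ hf, fun g => hs_congr hf,
      fun g => hs_add hf⟩, fun ρ hρ => wls L hs hρ⟩
  · obtain ⟨χ, hχ, e⟩ := bump hK h0
    rw [inter_eq_right.2 (subset_compl_singleton_iff.2 h0)]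
    refine ((hf χ hχ).1.restrict K).ae_eq ?_
    filter_upwards [ae_restrict_mem hK.measurableSet] with z hz
    rw [e z hz, one_mul]
  · simpa only [mul_sub, sub_eq_add_neg, mul_add, mul_neg] using
      hs_add (hf χ hχ) (hs_neg (hg χ hχ))
  · simpa only [mul_assoc, mul_left_comm] using hf _ (T χ hχ a ha)
  · classical
    induction t using Finset.induction_on with
    | empty => exact sm _ contDiffOn_const
    | insert i t hi ih =>
      simp only [Finset.sum_insert hi]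
      exact add _ _ (hF i (Finset.mem_insert_self _ _))
        (ih fun j hj => hF j (Finset.mem_insert_of_mem hj))

end Pool.Agent.MP_fcd29e_an.H41
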